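import Pool.Agent.Q311.LN.TensMain

/-!
# Exceptional Hodge tensors of bounded size in integral variations of Hodge structure are rare

Let `V` be a polarizable integral variation of Hodge structure over a variety `S`, and `U` an open subset of an affine
space, a chart of `S`. Let `Y x`, `x ∈ U`, be a period matrix of `V`: the rows are indexed by a basis of the de Rham
side adapted to the Hodge filtration, the element `a` of the basis being of Hodge type `wt a` (for instance `wt a = p - q`,
or `(p - q) / 2` for even weights), the columns by a flat basis. An integral tensor `v` in a tensor power `V ^ ⊗ N` is a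
Hodge tensor (of weight zero after a Tate twist) at the point `x` if its pairings with all pure tensors in the rows
of positive total type are zero: then `v` is in `F ^ 0`, and real, hence of type `(0, 0)`. Since `V` is polarized, `V ^ ⊗ N`
contains all tensors `V ^ ⊗ a ⊗ (V ^ ∨) ^ ⊗ b`, `a + b = N`, up to twists. The Mumford-Tate group of `V_x` is the fixator
of the Hodge tensors. It is different from the generic one exactly if there is an exceptional Hodge tensor, one which is
not a Hodge tensor everywhere on the universal covering. For example, CM points are of this kind, if the generic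
Mumford-Tate group is not a torus.

Theorem: the points of `U` of height at most `T` over number fields of degree at most `ω T`, at which there is an exceptional
Hodge tensor in `V ^ ⊗ N`, for some `N ≤ ω T`, of size at most `T ^ ω T`, lie on few hypersurfaces of small degree. There is
no condition on the Hodge numbers: it is not required that the Mumford-Tate domain is a symmetric domain.
-/

set_option autoImplicit false

open Filter NumberField Pool.Agent.Q311.LN
open Pool.Agent.Y890.MV (RegularM InnerM)

namespace Pool.Agent.Results.MP_2794d1_ag.BoundedTensors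

/-- `v` is a Hodge tensor for the filtration given by the rows of `Y`, the row `a` being of type `wt a`: all its periods
with respect to the words `w` in the rows of positive type are zero -/
def IsHodge {R H : Type} [Fintype H] (wt : R → ℤ) (Y : Matrix R H ℂ) {N : ℕ} (v : (Fin N → H) → ℂ) : Prop :=
  ∀ w : Fin N → R, 0 < ∑ k, wt (w k) → period Y v w = 0

/-- `g` preserves the polynomial relations over `ℂ[x]` between the entries of `Y x`: all of them are relations between
the entries of `Y x * g` (for instance, `g` is in the monodromy group) -/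
def Preserves {X R H : Type} [Fintype H] (U : Set (X → ℂ)) (Y : (X → ℂ) → Matrix R H ℂ) (g : Matrix H H ℂ) : Prop :=
  ∀ p : MvPolynomial (R × H) (MvPolynomial X ℂ),
    (∀ x ∈ U, MvPolynomial.eval₂ (MvPolynomial.eval x) (fun i => Y x i.1 i.2) p = 0) →
    ∀ x ∈ U, MvPolynomial.eval₂ (MvPolynomial.eval x) (fun i => (Y x * g) i.1 i.2) p = 0

/-- the points with coordinates in `K` of height at most `T`, of norm at most `k` and at distance at least `1 / k` from the
complement of `U`, such that for some `N ≤ k` some tensor `v` of degree `N` with entries in the integers of `K`, all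
conjugates of which are at most `T ^ k`, is a Hodge tensor for `Y s`, but not for all `Y s * g`, `g ∈ Γ` -/
def Exceptional {X R H : Type} [Fintype X] [Fintype H] (wt : R → ℤ) (U : Set (X → ℂ)) (Y : (X → ℂ) → Matrix R H ℂ)
    (Γ : Set (Matrix H H ℂ)) (k : ℕ) (K : Type) [Field K] [NumberField K] (io : K →+* ℂ) (T : ℝ) : Set (X → K) :=
  {s | (∀ j, Y120.HtLe K T (s j)) ∧ (fun j => io (s j)) ∈ InnerM U k ∧ ∃ N : ℕ, N ≤ k ∧
    ∃ v : (Fin N → H) → 𝓞 K, (∀ h (φ : K →+* ℂ), ‖φ (v h : K)‖ ≤ T ^ k) ∧
      IsHodge wt (Y fun j => io (s j)) (fun h => io (v h : K)) ∧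
      ∃ g ∈ Γ, ¬ IsHodge wt ((Y fun j => io (s j)) * g) (fun h => io (v h : K))}

/-- Let `U` be a connected open subset of `ℂ ^ X` and `Y x`, `x ∈ U`, matrices of analytic functions such that `ℂ(x)` is
algebraically closed in the field generated by `x` and the entries. Let `wt` be any function on the rows, and let `Γ` be
a set of matrices which preserve the polynomial relations between the entries, for instance the monodromy group. There is
`ω → ∞` such that for all large `T`, all number fields `K` of degree at most `ω T` and all embeddings: the points with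
exceptional Hodge tensors of bounded degree and size lie on at most `T ^ (1 / ω T)` hypersurfaces of degree at most
`T ^ (1 / ω T)`, and there are at most `T ^ (1 / ω T) * N ^ (|X| - 1)` of them, `N` being the number of elements of
`K` of height at most `T`. -/
theorem result {X R H : Type} [Fintype X] [DecidableEq X] [Nonempty X] [Fintype R] [DecidableEq R] [Fintype H]
    [DecidableEq H] (U : Set (X → ℂ)) (hU : IsPreconnected U) (hUo : IsOpen U) (hne : U.Nonempty)
    (Y : (X → ℂ) → Matrix R H ℂ) (hY : ∀ a b, AnalyticOnNhd ℂ (fun x => Y x a b) U)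
    (hreg : RegularM U fun (i : R × H) x => Y x i.1 i.2) (wt : R → ℤ) (Γ : Set (Matrix H H ℂ))
    (hΓ : ∀ g ∈ Γ, Preserves U Y g) :
    ∃ (ω : ℝ → ℕ) (T₀ : ℝ), Tendsto ω atTop atTop ∧ Monotone ω ∧ ∀ T, T₀ ≤ T → 0 < ω T ∧
      ∀ (K : Type) [Field K] [NumberField K], Module.finrank ℚ K ≤ ω T → ∀ (io : K →+* ℂ),
        Few (ω T) K io T (Exceptional wt U Y Γ (ω T) K io T) := by
  classical
  obtain ⟨ω, T₀, h1, h2, h3⟩ := tens_main hU hUo hne hY hreg Γ hΓ
  refine ⟨ω, T₀, h1, h2, fun T hT => ⟨(h3 T hT).1, fun K _ _ hK io => ?_⟩⟩
  obtain ⟨h4, h5, h6⟩ := (h3 T hT).2 K hK io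
  have hsub : Exceptional wt U Y Γ (ω T) K io T ⊆ ExcT U Y Γ (ω T) K io T := by
    rintro s ⟨hs1, hs2, N, hN, v, hv, hv1, g, hg, hv2⟩
    obtain ⟨w, hw⟩ := not_forall.1 hv2
    obtain ⟨hw0, hw1⟩ := Classical.not_imp.1 hw
    exact ⟨hs1, hs2, N, hN, v, hv, w, hv1 w hw0, g, hg, hw1⟩
  exact ⟨h4.mono le_rfl le_rfl (Set.image_mono hsub), h5.subset hsub,
    le_trans (by exact_mod_cast Set.ncard_le_ncard hsub h5) h6⟩

end Pool.Agent.Results.MP_2794d1_ag.BoundedTensors
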