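import Pool.Agent.Q328.VD.Window
import Pool.Agent.Q328.VD.Chain
import Pool.Agent.Results.MP_7e5527_ag.FewDigitOrbits

/-!
# CM points are rare near every integral point of a family of motives, few digits being changed

Let `V` be an open subset of the affine space of dimension `d` over `ℤ[1/N]` and let `M_t`, `t ∈ V`, be the motives `H^i(X_t)` of a smooth
projective family `X → V`; they define an integral variation of Hodge structure. At a CM point `t` (more precisely, if the algebraic group
generated by the Galois group has a commutative component of one, as predicted by the conjecture of Mumford and Tate and known for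
abelian varieties) there are an integer `m` and a number field `L`, whose degree is bounded in terms of the rank of the
variation, such that the `m`-th powers of all Frobenius eigenvalues of `M_t` at primes of good reduction belong to `L`.

**Theorem.** Suppose that there are a set `P` of prime numbers with at least `y ^ θ` elements up to `y` for large `y` and `κ > 0` such
that for `p ∈ P` and every number field `L` of degree at most `n₀` there are at least `κ p ^ d` good residue classes modulo `p` at which the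
`m`-th powers of the Frobenius eigenvalues do not all belong to `L`. (If the monodromy group of the family is a full symplectic or
orthogonal group, these are almost all residue classes, for large `p`: for each `L` the number of the Weil polynomials
in question is bounded, and each of them belongs to few residue classes, by the large sieve for Frobenius of Kowalski.) Let an
ARBITRARY integral point be given, whose coordinates have at most `K` digits in base `b`. Choose for each coordinate `r` of the `K`
positions and replace the digits at these positions by arbitrary other digits; let `C log K ≤ r ≤ K / 2`. Then **for at most a proportion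
`K ^ (-B)` of the choices the new point `t` is such that, with the exception of at most `M` primes, the `m`-th powers of the
Frobenius eigenvalues of `M_t` belong to one number field of degree at most `n₀`.** Here `B` and `M` are arbitrary and `C`, `K₀` depend only
on the family, `m`, `n₀`, `P`, `κ`, `θ`, `b`, `M` and `B`; the number field is arbitrary and depends on the point. In particular the CM
points in this sense are rare near every integral point, also in families which are not of Shimura type.

The proof: at most `n₀` of the primes generate the field, so there are at most `K ^ O(1)` possibilities for it; for each of them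
the new points avoid, for all `p ∈ P` with few exceptions, the large set of residue classes outside the field. The law for the residues,
modulo many small primes, of vectors of which few digits are changed (`Pool.Agent.Q328.VD.window`) is uniform in these sets.

The families (`Family`) and the changes of digits are those of `Pool.Agent.Results.MP_7e5527_ag.FewDigitOrbits`.
-/

set_option autoImplicit false

namespace Pool.Agent.Results.MP_2794d1_ag.FewDigitFrobeniusFields

open Module Polynomial Pool.Agent.Results.MP_7e5527_ag.FewDigitOrbits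

/-- The complex roots of the polynomial `Q`. -/
def roots (Q : ℚ[X]) : Set ℂ := {z | aeval z Q = 0}

section family

variable {Γ : Type} [Group Γ] {V : ℕ → Type} [∀ ℓ, AddCommGroup (V ℓ)] [∀ (ℓ : ℕ) [Fact ℓ.Prime], Module ℚ_[ℓ] (V ℓ)]
  [∀ (ℓ : ℕ) [Fact ℓ.Prime], FiniteDimensional ℚ_[ℓ] (V ℓ)]

/-- There is a number field `L` of degree at most `n₀` such that for all primes `p` of good reduction (the residue class of `t`
modulo `p` is good) with at most `M` exceptions all eigenvalues of the power `γ p ^ m` of the Frobenius element on the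
`ℓ`-adic representations, `ℓ ≠ p`, of the member `A_t` belong to `L`. -/
def BoundedField {d : ℕ} (A : Family Γ V d) (m n₀ M : ℕ) (t : Fin d → ℤ) : Prop :=
  ∃ (L : IntermediateField ℚ ℂ) (bad : Finset ℕ), FiniteDimensional ℚ L ∧ finrank ℚ L ≤ n₀ ∧ bad.card ≤ M ∧
    ∀ p : ℕ, p.Prime → p ∉ bad → red p t ∈ A.good p → ∀ (ℓ : ℕ) [Fact ℓ.Prime], p ≠ ℓ →
      ∀ Q : ℚ[X], HasCharpoly (A.ρ t ℓ) (A.γ p ^ m) Q → roots Q ⊆ L

/-- The good residue classes modulo `p` at which the eigenvalues of the `m`-th power of the Frobenius element do not all belong to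
`L`. -/
def outside {d : ℕ} (A : Family Γ V d) (m p : ℕ) (L : IntermediateField ℚ ℂ) : Set (Fin d → ZMod p) :=
  {x | x ∈ A.good p ∧ ¬ roots (A.Frob p m x) ⊆ L}

/-- The roots of the polynomial at a residue class modulo a prime up to `K`. -/
def rootAt {d : ℕ} (A : Family Γ V d) (m K : ℕ) (x : Fin (K + 1) × (Fin d → Fin (K + 1))) : Set ℂ :=
  roots (A.Frob (x.1 : ℕ) m (fun j => ((x.2 j : ℕ) : ZMod (x.1 : ℕ))))

end family

open Classical in
/-- **Points with Frobenius eigenvalues in a number field of bounded degree are rare near every integral point, few digits being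
changed.** -/
theorem result {Γ : Type} [Group Γ] {V : ℕ → Type} [∀ ℓ, AddCommGroup (V ℓ)] [∀ (ℓ : ℕ) [Fact ℓ.Prime], Module ℚ_[ℓ] (V ℓ)]
    [∀ (ℓ : ℕ) [Fact ℓ.Prime], FiniteDimensional ℚ_[ℓ] (V ℓ)] {d : ℕ} (A : Family Γ V d) (m n₀ : ℕ)
    (P : ℕ → Prop) (κ θ : ℝ) (hκ : 0 < κ) (hθ : 0 < θ)
    (hP : ∀ p, P p → p.Prime ∧ ∀ L : IntermediateField ℚ ℂ, FiniteDimensional ℚ L → finrank ℚ L ≤ n₀ →
      κ * (p : ℝ) ^ d ≤ ((outside A m p L).ncard : ℝ))
    (hcount : ∃ y₀ : ℕ, ∀ y : ℕ, y₀ ≤ y → (y : ℝ) ^ θ ≤ (({p : ℕ | P p ∧ p ≤ y}).ncard : ℝ)) :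
    ∀ (b : ℕ), 2 ≤ b → ∀ (M : ℕ) (B : ℝ), 0 < B →
      ∃ C : ℝ, 0 < C ∧ ∃ K₀ : ℕ, ∀ K : ℕ, K₀ ≤ K → ∀ r : ℕ, C * Real.log K ≤ r → 2 * r ≤ K →
      -- every integral point with coordinates with at most `K` digits and all new digits
      ∀ (s : Fin d → ℤ) (N : Fin d → ℕ) (f : Fin d → ℕ → ℕ), Admissible b K s N f →
        (((choices d r K).filter (fun S => BoundedField A m n₀ M (changed b K s N f S))).card : ℝ) ≤
          (K : ℝ) ^ (-B) * (K.choose r : ℝ) ^ d := by
  intro b hb M B hB
  obtain ⟨E, hE⟩ : ∃ E : ℕ, E = (2 * (d + 1) + 1) * n₀ := ⟨_, rfl⟩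
  obtain ⟨C, hC, K₀, h⟩ := Pool.Agent.Q328.VD.window M b hb (B + E) 1 κ θ (by positivity) one_pos hκ hθ d P
    (fun p hp => (hP p hp).1) hcount
  refine ⟨C, hC, K₀ + 2, fun K hK r hr hrK s N f hA => ?_⟩
  have hK0 : (0 : ℝ) < K := by exact_mod_cast (by omega : 0 < K)
  -- the residue classes modulo primes up to `K`
  obtain ⟨root, hroot⟩ : ∃ root : Fin (K + 1) × (Fin d → Fin (K + 1)) → Set ℂ, root = rootAt A m K := ⟨_, rfl⟩
  -- one field
  obtain ⟨J, hJ⟩ : ∃ J : (Fin n₀ → Option (Fin (K + 1) × (Fin d → Fin (K + 1)))) → Finset (Fin d → Finset ℕ), J = fun c =>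
    (choices d r K).filter (fun S => (FiniteDimensional ℚ (Pool.Agent.Q328.VD.fieldOf root c) ∧
      finrank ℚ (Pool.Agent.Q328.VD.fieldOf root c) ≤ n₀) ∧
      Set.ncard {p : ℕ | P p ∧ (K : ℝ) ^ ((1 : ℝ) * θ / 4) < p ∧ (p : ℝ) ≤ (K : ℝ) ^ (1 : ℝ) ∧
        red p (changed b K s N f S) ∈ outside A m p (Pool.Agent.Q328.VD.fieldOf root c)} ≤ M) := ⟨_, rfl⟩
  have key : ∀ c, ((J c).card : ℝ) ≤ (K : ℝ) ^ (-(B + E)) * (K.choose r : ℝ) ^ d := by
    intro c
    by_cases hc : FiniteDimensional ℚ (Pool.Agent.Q328.VD.fieldOf root c) ∧ finrank ℚ (Pool.Agent.Q328.VD.fieldOf root c) ≤ n₀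
    · have h2 := h K (by omega) r hr hrK (fun p => outside A m p (Pool.Agent.Q328.VD.fieldOf root c)) (fun p hp _ _ => by
        have h3 := (hP p hp).2 _ hc.1 hc.2
        rwa [← Nat.card_coe_set_eq] at h3) N hA.2.1 s hA.1 f hA.2.2
      refine le_trans (Nat.cast_le.2 (Finset.card_le_card fun S hS => ?_)) h2
      rw [hJ, Finset.mem_filter] at hS
      exact Finset.mem_filter.2 ⟨hS.1, hS.2.2⟩
    · have h3 : J c = ∅ := by
        rw [hJ, Finset.eq_empty_iff_forall_notMem]
        intro S hS
        exact hc (Finset.mem_filter.1 hS).2.1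
      rw [h3, Finset.card_empty, Nat.cast_zero]
      positivity
  -- every point belongs to one of them
  have hsub : (choices d r K).filter (fun S => BoundedField A m n₀ M (changed b K s N f S)) ⊆
      (Finset.univ : Finset (Fin n₀ → Option (Fin (K + 1) × (Fin d → Fin (K + 1))))).biUnion J := by
    intro S hS
    rw [Finset.mem_filter] at hS
    obtain ⟨hS1, L, bad, hL, hn, hbad, hLt⟩ := hS
    obtain ⟨t, ht⟩ : ∃ t, t = changed b K s N f S := ⟨_, rfl⟩
    rw [← ht] at hLt
    -- the polynomials at the good primes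
    have hgood : ∀ p : ℕ, p.Prime → p ∉ bad → red p t ∈ A.good p → roots (A.Frob p m (red p t)) ⊆ L := by
      intro p hp hpb hpg
      obtain ⟨ℓ, hℓ, hne⟩ : ∃ ℓ : ℕ, ℓ.Prime ∧ p ≠ ℓ := by
        by_cases h2 : p = 2
        · exact ⟨3, by norm_num, by omega⟩
        · exact ⟨2, by norm_num, h2⟩
      have : Fact ℓ.Prime := ⟨hℓ⟩
      exact hLt p hp hpb hpg ℓ hne _ (A.charpoly p hp ℓ hne t hpg m)
    obtain ⟨W, hW⟩ : ∃ W : Set (Fin (K + 1) × (Fin d → Fin (K + 1))), W = {x : Fin (K + 1) × (Fin d → Fin (K + 1)) | (x.1 : ℕ).Prime ∧ (x.1 : ℕ) ∉ bad ∧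
      red (x.1 : ℕ) t ∈ A.good (x.1 : ℕ) ∧ (fun j => ((x.2 j : ℕ) : ZMod (x.1 : ℕ))) = red (x.1 : ℕ) t} := ⟨_, rfl⟩
    obtain ⟨c, -, hfd, hfr, hall⟩ := Pool.Agent.Q328.VD.chain (n₀ := n₀) root W L hL hn (by
      intro x hx
      rw [hW] at hx
      obtain ⟨h1, h2, h3, h4⟩ := hx
      rw [hroot]
      show roots (A.Frob (x.1 : ℕ) m (fun j => ((x.2 j : ℕ) : ZMod (x.1 : ℕ)))) ⊆ L
      rw [h4]
      exact hgood _ h1 h2 h3)
    rw [Finset.mem_biUnion]
    refine ⟨c, Finset.mem_univ _, ?_⟩
    rw [hJ, Finset.mem_filter]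
    refine ⟨hS1, ⟨hfd, hfr⟩, ?_⟩
    rw [← ht]
    refine le_trans ?_ hbad
    rw [← Set.ncard_coe_finset]
    refine Set.ncard_le_ncard ?_ bad.finite_toSet
    rintro p ⟨hp, -, hpK, hpS⟩
    by_contra hpb
    have hpp := (hP p hp).1
    have : Fact p.Prime := ⟨hpp⟩
    rw [Real.rpow_one] at hpK
    have hpK' : p ≤ K := by exact_mod_cast hpK
    obtain ⟨x, hx⟩ : ∃ x : Fin (K + 1) × (Fin d → Fin (K + 1)), x = (⟨p, by omega⟩, fun j => ⟨(red p t j).val, by
      have := ZMod.val_lt (red p t j)
      omega⟩) := ⟨_, rfl⟩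
    have hx1 : (x.1 : ℕ) = p := by rw [hx]
    have hxp : (fun j => ((x.2 j : ℕ) : ZMod p)) = red p t := by
      funext j
      rw [hx]
      simp
    apply hpS.2
    have hxW : x ∈ W := by
      rw [hW]
      subst hx
      exact ⟨hpp, hpb, hpS.1, hxp⟩
    have h5 := hall x hxW
    rw [hroot] at h5
    subst hx
    have h6 : roots (A.Frob p m (fun j => (((red p t j).val : ℕ) : ZMod p))) ⊆ Pool.Agent.Q328.VD.fieldOf root c := by
      rw [hroot]
      exact h5
    rwa [show (fun j => (((red p t j).val : ℕ) : ZMod p)) = red p t from hxp] at h6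
  -- the number of the fields
  have hcard : (((Finset.univ : Finset (Fin n₀ → Option (Fin (K + 1) × (Fin d → Fin (K + 1))))).biUnion J).card : ℝ) ≤
      (K : ℝ) ^ (E : ℝ) * ((K : ℝ) ^ (-(B + E)) * (K.choose r : ℝ) ^ d) := by
    have hnum : (Finset.univ : Finset (Fin n₀ → Option (Fin (K + 1) × (Fin d → Fin (K + 1))))).card ≤ K ^ E := by
      rw [Finset.card_univ, Fintype.card_fun, Fintype.card_option, Fintype.card_prod, Fintype.card_fun, Fintype.card_fin,
        Fintype.card_fin, Fintype.card_fin, hE, pow_mul]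
      refine Nat.pow_le_pow_left ?_ _
      have h1 : K + 1 ≤ K ^ 2 := by nlinarith
      have h2 : (K + 1) * (K + 1) ^ d = (K + 1) ^ (d + 1) := by ring
      have h3 : (K + 1) ^ (d + 1) ≤ K ^ (2 * (d + 1)) := by
        rw [pow_mul]
        exact Nat.pow_le_pow_left h1 _
      have h4 : 1 ≤ K ^ (2 * (d + 1)) := Nat.one_le_pow _ _ (by omega)
      calc (K + 1) * (K + 1) ^ d + 1 ≤ K ^ (2 * (d + 1)) + K ^ (2 * (d + 1)) := by rw [h2]; omega
        _ = 2 * K ^ (2 * (d + 1)) := by ring
        _ ≤ K * K ^ (2 * (d + 1)) := Nat.mul_le_mul_right _ (by omega)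
        _ = K ^ (2 * (d + 1) + 1) := by ring
    have h8 : (0 : ℝ) ≤ (K : ℝ) ^ (-(B + E)) * (K.choose r : ℝ) ^ d := by positivity
    calc (((Finset.univ : Finset (Fin n₀ → Option (Fin (K + 1) × (Fin d → Fin (K + 1))))).biUnion J).card : ℝ)
        ≤ ((∑ c ∈ (Finset.univ : Finset (Fin n₀ → Option (Fin (K + 1) × (Fin d → Fin (K + 1))))), (J c).card : ℕ) : ℝ) :=
          Nat.cast_le.2 Finset.card_biUnion_le
      _ ≤ ∑ c ∈ (Finset.univ : Finset (Fin n₀ → Option (Fin (K + 1) × (Fin d → Fin (K + 1))))),
          ((K : ℝ) ^ (-(B + E)) * (K.choose r : ℝ) ^ d) := by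
          push_cast
          exact Finset.sum_le_sum fun c _ => key c
      _ = ((Finset.univ : Finset (Fin n₀ → Option (Fin (K + 1) × (Fin d → Fin (K + 1))))).card : ℝ) *
          ((K : ℝ) ^ (-(B + E)) * (K.choose r : ℝ) ^ d) := by rw [Finset.sum_const, nsmul_eq_mul]
      _ ≤ (K : ℝ) ^ (E : ℝ) * ((K : ℝ) ^ (-(B + E)) * (K.choose r : ℝ) ^ d) := by
          refine mul_le_mul_of_nonneg_right ?_ h8
          rw [Real.rpow_natCast]
          exact_mod_cast hnum
  refine (Nat.cast_le.2 (Finset.card_le_card hsub)).trans (hcard.trans ?_)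
  rw [← mul_assoc, ← Real.rpow_add hK0]
  refine le_of_eq ?_
  congr 2
  ring

end Pool.Agent.Results.MP_2794d1_ag.FewDigitFrobeniusFields
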