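import Pool.Agent.Q77.NP.Window
import Pool.Agent.Q328.VD.Chain

/-!
# CM points are rare among the integral points near powers of a family of motives, for all number fields at once

Let `V` be an open subset of the affine space of dimension `d` over `ℤ[1/N]` and let `M_t`, `t ∈ V`, be the motives `H^i(X_t)` of a smooth
projective family `X → V`; they define an integral variation of Hodge structure. At a CM point `t` (more precisely, if the algebraic group
generated by the Galois group has a commutative component of one, as predicted by the conjecture of Mumford and Tate and known for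
abelian varieties) there are an integer `m` and a number field `L`, whose degree is bounded in terms of the rank of the
variation, such that the `m`-th powers of all Frobenius eigenvalues of `M_t` at primes of good reduction belong to `L`.

**Theorem.** Suppose that there are a set `P` of prime numbers with at least `y ^ θ` elements up to `y` for large `y` and `κ > 0` such
that for `p ∈ P` and every number field `L` of degree at most `n₀` there are at least `κ p ^ d` good residue classes modulo `p` at which the
`m`-th powers of the Frobenius eigenvalues do not all belong to `L`. (If the monodromy group of the family is a full symplectic or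
orthogonal group, these are almost all residue classes, for large `p`; see `FewDigitFrobeniusFields`.) Let `e_l > 1` be
exponents which are not integers, `w_l ≠ 0`; let `i` run through `{1, ..., x} ^ m'` (for example `m' = 1`: a curve), and consider ALL
integral points `t = a ± n` with `|n_l - β_l - w_l i(μ l) ^ (e_l)| ≤ y ^ W`, where the integral vector `a`, the signs and the real shifts
`β_l` are arbitrary. Then for all but at most `x ^ m' / y ^ A` of the `i`, ALL these `t` have the following property for all `z` from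
`y` to `x ^ c`: **for EVERY number field `L` of degree at most `n₀` the `m`-th powers of the Frobenius eigenvalues of `M_t` at `p` do not all
belong to `L` for at least `κ / 2` of the primes `p ∈ P`, `p ≤ z`** (at which `M_t` has good reduction). Here `A` and `W` are arbitrary, and
`c > 0` and the bound `y₀ ≤ y` depend on them, on the family, `m`, `n₀`, `P`, `κ`, `θ`, `e`, `w` and `μ` only.

In particular (`z = x ^ c`) all but `x ^ (m' - c A)` of the `i` have no CM point near them, in this sense, also in families which are not of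
Shimura type and for families with one parameter. `FewDigitFrobeniusFields` is the analogue for points of which few digits are changed; there
at most a fixed number of exceptional primes is allowed.

The proof: at most `n₀` of the primes generate the part of the field which matters, so there are at most `z ^ O(1)` possibilities for it;
for each of them the residue classes of the points are outside the field for many primes, by the law for functions of the residues
of the tuples near powers (`Q56.WL`, `Q77.NP.near_window`), which is uniform in these sets.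
-/

set_option autoImplicit false

namespace Pool.Agent.Results.MP_2794d1_ag.MembersNearPowers

open Module Polynomial
open Pool.Agent.Q56.WL (Setting ForAlmostAll)
open Pool.Agent.Q77.NP (point)

/-- The residue class modulo `p` of an integral point `t`. -/
def red {d : ℕ} (p : ℕ) (t : Fin d → ℤ) : Fin d → ZMod p := fun j => (t j : ZMod p)

/-- The characteristic polynomial of `γ` is the polynomial `Q` with rational coefficients. -/
def HasCharpoly {k V Γ : Type} [Field k] [AddCommGroup V] [Module k V] [Group Γ] [CharZero k] [FiniteDimensional k V]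
    (ρ : Representation k Γ V) (γ : Γ) (Q : ℚ[X]) : Prop :=
  (ρ γ).charpoly = Q.map (algebraMap ℚ k)

/-- The complex roots of the polynomial `Q`. -/
def roots (Q : ℚ[X]) : Set ℂ := {z | aeval z Q = 0}

section family

variable (Γ : Type) [Group Γ] (V : ℕ → Type) [∀ ℓ, AddCommGroup (V ℓ)] [∀ (ℓ : ℕ) [Fact ℓ.Prime], Module ℚ_[ℓ] (V ℓ)]
  [∀ (ℓ : ℕ) [Fact ℓ.Prime], FiniteDimensional ℚ_[ℓ] (V ℓ)]

/-- A family of motives `A_t` over a number field with Galois group `Γ`, with `d` integral parameters, for `t` in a set
`U ⊆ ℤ^d`; `ρ t ℓ` is the action of `Γ` on the `ℓ`-adic realization `V ℓ`. For every prime number `p` there are a Frobenius element `γ p`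
at a place above `p` and a set `good p` of residue classes modulo `p`; the integral points in these classes belong to `U`, and for
`p ≠ ℓ` the characteristic polynomial of the power `γ p ^ n` on the realization is a polynomial `Frob p n x` with rational coefficients
which depends only on the residue class `x` modulo `p` of the integral point. -/
structure Family (d : ℕ) where
  U : Set (Fin d → ℤ)
  good : ∀ p : ℕ, Set (Fin d → ZMod p)
  mem : ∀ p : ℕ, p.Prime → ∀ t : Fin d → ℤ, red p t ∈ good p → t ∈ U
  ρ : (Fin d → ℤ) → ∀ (ℓ : ℕ) [Fact ℓ.Prime], Representation ℚ_[ℓ] Γ (V ℓ)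
  γ : ℕ → Γ
  Frob : ∀ p : ℕ, ℕ → (Fin d → ZMod p) → ℚ[X]
  charpoly : ∀ p : ℕ, p.Prime → ∀ (ℓ : ℕ) [Fact ℓ.Prime], p ≠ ℓ → ∀ t : Fin d → ℤ, red p t ∈ good p →
    ∀ n : ℕ, HasCharpoly (ρ t ℓ) (γ p ^ n) (Frob p n (red p t))

variable {Γ V}

/-- The good residue classes modulo `p` at which the eigenvalues of the `m`-th power of the Frobenius element do not all belong to
`L`. -/
def outside {d : ℕ} (A : Family Γ V d) (m p : ℕ) (L : IntermediateField ℚ ℂ) : Set (Fin d → ZMod p) :=
  {x | x ∈ A.good p ∧ ¬ roots (A.Frob p m x) ⊆ L}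

/-- For every number field `L` of degree at most `n₀` the following is true for at least the proportion `c` of the primes `p ∈ P`,
`p ≤ z`: the class of `t` modulo `p` is good (so `t ∈ U` and `A_t` has good reduction at `p`), and the characteristic polynomial of
`γ p ^ m` on each `ℓ`-adic realization of `A_t`, `ℓ ≠ p`, is rational and does not split in `L`. -/
def FarFromFields {d : ℕ} (A : Family Γ V d) (P : ℕ → Prop) (m n₀ : ℕ) (c : ℝ) (z : ℕ) (t : Fin d → ℤ) : Prop :=
  ∀ L : IntermediateField ℚ ℂ, FiniteDimensional ℚ L → finrank ℚ L ≤ n₀ →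
    c * (({p : ℕ | P p ∧ p ≤ z}).ncard : ℝ) ≤
      (({p : ℕ | P p ∧ p ≤ z ∧ red p t ∈ A.good p ∧ ∀ (ℓ : ℕ) [Fact ℓ.Prime], p ≠ ℓ →
        ∃ Q : ℚ[X], HasCharpoly (A.ρ t ℓ) (A.γ p ^ m) Q ∧ ¬ roots Q ⊆ L}).ncard : ℝ)

/-- The roots of the polynomial at a residue class modulo a prime up to `K`. -/
def rootAt {d : ℕ} (A : Family Γ V d) (m K : ℕ) (x : Fin (K + 1) × (Fin d → Fin (K + 1))) : Set ℂ :=
  roots (A.Frob (x.1 : ℕ) m (fun j => ((x.2 j : ℕ) : ZMod (x.1 : ℕ))))

open Classical in
/-- the fields generated by the roots at `n₀` residue classes -/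
noncomputable def fields {d : ℕ} (A : Family Γ V d) (m n₀ z : ℕ) : Finset (IntermediateField ℚ ℂ) :=
  ((Finset.univ : Finset (Fin n₀ → Option (Fin (z + 1) × (Fin d → Fin (z + 1))))).image
    (Pool.Agent.Q328.VD.fieldOf (rootAt A m z))).filter (fun L => FiniteDimensional ℚ L ∧ finrank ℚ L ≤ n₀)

lemma fields_card {d : ℕ} (A : Family Γ V d) (m n₀ : ℕ) {z : ℕ} (hz : 2 ≤ z) :
    (fields A m n₀ z).card ≤ z ^ ((2 * (d + 1) + 1) * n₀) := by
  classical
  unfold fields
  refine (Finset.card_filter_le _ _).trans (Finset.card_image_le.trans ?_)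
  rw [Finset.card_univ, Fintype.card_fun, Fintype.card_option, Fintype.card_prod, Fintype.card_fun, Fintype.card_fin,
    Fintype.card_fin, Fintype.card_fin, pow_mul]
  refine Nat.pow_le_pow_left ?_ _
  have h1 : z + 1 ≤ z ^ 2 := by nlinarith
  have h2 : (z + 1) * (z + 1) ^ d = (z + 1) ^ (d + 1) := by ring
  have h3 : (z + 1) ^ (d + 1) ≤ z ^ (2 * (d + 1)) := by
    rw [pow_mul]
    exact Nat.pow_le_pow_left h1 _
  have h4 : 1 ≤ z ^ (2 * (d + 1)) := Nat.one_le_pow _ _ (by omega)
  calc (z + 1) * (z + 1) ^ d + 1 ≤ z ^ (2 * (d + 1)) + z ^ (2 * (d + 1)) := by rw [h2]; omega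
    _ = 2 * z ^ (2 * (d + 1)) := by ring
    _ ≤ z * z ^ (2 * (d + 1)) := Nat.mul_le_mul_right _ (by omega)
    _ = z ^ (2 * (d + 1) + 1) := by ring

end family

/-- **Points with Frobenius eigenvalues in a number field of bounded degree are rare near powers, for all fields at once.** See the
introduction. -/
theorem result {Γ : Type} [Group Γ] {V : ℕ → Type} [∀ ℓ, AddCommGroup (V ℓ)] [∀ (ℓ : ℕ) [Fact ℓ.Prime], Module ℚ_[ℓ] (V ℓ)]
    [∀ (ℓ : ℕ) [Fact ℓ.Prime], FiniteDimensional ℚ_[ℓ] (V ℓ)] {d : ℕ} (A : Family Γ V d) (m n₀ : ℕ)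
    (P : ℕ → Prop) (κ θ : ℝ) (hκ : 0 < κ) (hθ : 0 < θ)
    (hP : ∀ p, P p → p.Prime ∧ ∀ L : IntermediateField ℚ ℂ, FiniteDimensional ℚ L → finrank ℚ L ≤ n₀ →
      κ * (p : ℝ) ^ d ≤ ((outside A m p L).ncard : ℝ))
    (hcount : ∃ y₀ : ℕ, ∀ y : ℕ, y₀ ≤ y → (y : ℝ) ^ θ ≤ (({p : ℕ | P p ∧ p ≤ y}).ncard : ℝ))
    (m' : ℕ) (e w : Fin d → ℝ) (μ : Fin d → Fin m') (hs : Setting e w μ) (a W : ℕ) :
    ForAlmostAll e w μ a W
      (fun (v : (Fin d → ℤ) × (Fin d → ℤˣ)) z n => FarFromFields A P m n₀ (κ / 2) z (point v.1 v.2 n)) := by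
  classical
  have main := Pool.Agent.Q77.NP.near_window hs P κ θ hκ hθ (fun p hp => (hP p hp).1) hcount a W
    ((2 * (d + 1) + 1) * n₀) (fields A m n₀) (fun z hz => fields_card A m n₀ hz) (fun L p => outside A m p L)
    (fun z L hL p hp => by
      unfold fields at hL
      rw [Finset.mem_filter] at hL
      exact (hP p hp).2 L hL.2.1 hL.2.2)
  refine main.mono 0 ?_
  intro v z n _ hlaw L hL hn
  obtain ⟨t, ht⟩ : ∃ t, t = point v.1 v.2 n := ⟨_, rfl⟩
  rw [← ht] at hlaw ⊢
  obtain ⟨Wt, hWt⟩ : ∃ Wt : Set (Fin (z + 1) × (Fin d → Fin (z + 1))), Wt = {x | rootAt A m z x ⊆ L} := ⟨_, rfl⟩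
  obtain ⟨c, -, hfd, hfr, hall⟩ := Pool.Agent.Q328.VD.chain (n₀ := n₀) (rootAt A m z) Wt L hL hn (by
    intro x hx
    rw [hWt] at hx
    exact hx)
  have h1 := hlaw (Pool.Agent.Q328.VD.fieldOf (rootAt A m z) c) (by
    unfold fields
    rw [Finset.mem_filter]
    exact ⟨Finset.mem_image_of_mem _ (Finset.mem_univ _), hfd, hfr⟩)
  refine h1.trans ?_
  have hfin : ({p : ℕ | P p ∧ p ≤ z ∧ red p t ∈ A.good p ∧ ∀ (ℓ : ℕ) [Fact ℓ.Prime], p ≠ ℓ →
      ∃ Q : ℚ[X], HasCharpoly (A.ρ t ℓ) (A.γ p ^ m) Q ∧ ¬ roots Q ⊆ L}).Finite :=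
    (Set.finite_Iic z).subset fun p hp => hp.2.1
  refine Nat.cast_le.2 (Set.ncard_le_ncard ?_ hfin)
  rintro p ⟨hp, hpz, hgood, hnot⟩
  have hpp := (hP p hp).1
  have : Fact p.Prime := ⟨hpp⟩
  refine ⟨hp, hpz, hgood, fun ℓ _ hne => ⟨A.Frob p m (red p t), A.charpoly p hpp ℓ hne t hgood m, fun hsub => hnot ?_⟩⟩
  -- the index of the residue class
  have hxp : (fun j => (((red p t j).val : ℕ) : ZMod p)) = red p t := by
    funext j
    simp
  have h2 := hall (⟨p, by omega⟩, fun j => ⟨(red p t j).val, by
    have := ZMod.val_lt (red p t j)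
    omega⟩) (by
      rw [hWt]
      show roots (A.Frob p m (fun j => (((red p t j).val : ℕ) : ZMod p))) ⊆ L
      rw [hxp]
      exact hsub)
  have h3 : roots (A.Frob p m (fun j => (((red p t j).val : ℕ) : ZMod p))) ⊆
      Pool.Agent.Q328.VD.fieldOf (rootAt A m z) c := h2
  rw [hxp] at h3
  exact h3

end Pool.Agent.Results.MP_2794d1_ag.MembersNearPowers
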