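import Pool.Agent.Q229.RAC
import Pool.Agent.Y890.VH.Main

/-!
# Points with complex multiplication over number fields near almost every point of a curve

Let `U` be a nonempty connected open subset of `ℂ`, and `F_j`, `j` in a finite set `J`, matrices of analytic functions on `U` with
rows indexed by `H` and `r j` columns (`f ⟨j, (m, c)⟩` is the entry `(m, c)` of `F_j`; for instance bases of the pieces of the
Hodge filtration of a variation of Hodge structure over a curve, in a flat basis). We consider the points `s` of `U` in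
number fields `K`, and the matrices `M` over the integers of `K` which preserve the column spaces of all `F_j(s)`: for integral `M`
these are the endomorphisms of the Hodge structure at `s`, and `s` is a CM point if one of them has distinct eigenvalues (in the
generic case).

The starting file `BoundedEndomorphisms` shows that the points of height at most `T` with such endomorphisms of size at most
`T^A`, some conjugate of which under monodromy is not an endomorphism, are few. We prove that there is a single set `Z` of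
Hausdorff dimension `0` such that near every point `x ∉ Z` of `U` there are no such points at all: for all number fields `K`,
`τ > 0`, `A` and all large `T` no point `s` of `K` of height at most `T` with `|x - s| ≤ T^(-τ)`. (By Dirichlet's theorem every real
number has infinitely many such rational approximations if `τ ≤ 2`, every complex number has infinitely many such approximations
from every imaginary quadratic field if `τ ≤ 1`, …)
-/

set_option autoImplicit false

open MeasureTheory Filter Topology NumberField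

namespace Pool.Agent.Results.MP_2794d1_ag.NumberFieldPoints

open Pool.Agent Pool.Agent.Y890.MV Pool.Agent.Y890.VH

variable {H J : Type} [Fintype H] [DecidableEq H] [Fintype J] [DecidableEq J] {r : J → ℕ}

/-- The complex matrix with the entries of `M`. -/
noncomputable def toC (K : IntermediateField ℚ ℂ) (M : Matrix H H (𝓞 K)) : Matrix H H ℂ :=
  Matrix.of fun i j => ((M i j : K) : ℂ)

/-- The values of the entries of the matrices `F_j` at the complex number `s`. -/
def at' (f : Sg H J r → (Fin 1 → ℂ) → ℂ) (s : ℂ) : Sg H J r → ℂ := fun y => f y fun _ => s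

/-- The exceptional points. -/
def Ex (U : Set (Fin 1 → ℂ)) (f : Sg H J r → (Fin 1 → ℂ) → ℂ) (Γ : Subgroup (GL H ℂ))
    (i : {F : IntermediateField ℚ ℂ // FiniteDimensional ℚ F} × ℕ) (T : ℝ) : Set (Fin 1 → ℂ) :=
  haveI : FiniteDimensional ℚ i.1.1 := i.1.2
  haveI : NumberField i.1.1 := NumberField.mk
  (fun (s : Fin 1 → i.1.1) j => algebraMap i.1.1 ℂ (s j)) ''
    ExcEnd f (InnerM U (i.2 + 1)) i.1.1 (algebraMap i.1.1 ℂ) Γ ((i.2 + 1 : ℕ) : ℝ) T

theorem htLe_mono {K : Type} [Field K] [NumberField K] {T T' : ℝ} (h : T ≤ T') {x : K} (hx : Y120.HtLe K T x) :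
    Y120.HtLe K T' x := by
  obtain ⟨a, b, hb, h1, h2, h3⟩ := hx
  exact ⟨a, b, hb, h1.trans h, h2.trans h, h3⟩

theorem inner_mono {U : Set (Fin 1 → ℂ)} {k l : ℕ} (hk : 0 < k) (h : k ≤ l) : InnerM U k ⊆ InnerM U l := by
  rintro z ⟨h1, h2⟩
  refine ⟨h1.trans (by exact_mod_cast h), (Metric.ball_subset_ball ?_).trans h2⟩
  exact inv_anti₀ (by exact_mod_cast hk) (by exact_mod_cast h)

theorem ex_count {U : Set (Fin 1 → ℂ)} {f : Sg H J r → (Fin 1 → ℂ) → ℂ}
    (hU : IsPreconnected U) (hUo : IsOpen U) (hne : U.Nonempty) (hf : ∀ i, AnalyticOnNhd ℂ (f i) U)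
    (hreg : RegularM U f) (Γ : Subgroup (GL H ℂ)) (hΓ : ∀ γ ∈ Γ, MonInv U f (γ : Matrix H H ℂ))
    (i : {F : IntermediateField ℚ ℂ // FiniteDimensional ℚ F} × ℕ) (σ : ℝ) (hσ : 0 < σ) :
    ∃ C T₀ : ℝ, ∀ T : ℝ, T₀ ≤ T → (Ex U f Γ i T).Finite ∧ ((Ex U f Γ i T).ncard : ℝ) ≤ C * T ^ σ := by
  haveI : FiniteDimensional ℚ i.1.1 := i.1.2
  haveI : NumberField i.1.1 := NumberField.mk
  obtain ⟨ω, T₀, hω, -, h⟩ := main hU hUo hne hf hreg Γ hΓ
  obtain ⟨k, hk⟩ := exists_nat_gt (1 / σ)
  have h1 := (tendsto_atTop.1 hω) (max k (max (i.2 + 1) (Module.finrank ℚ i.1.1)))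
  obtain ⟨T₁, hT₁⟩ := eventually_atTop.1 h1
  refine ⟨1, max T₀ (max T₁ 1), fun T hT => ?_⟩
  have hTa : T₀ ≤ T := (le_max_left _ _).trans hT
  have hTb : T₁ ≤ T := (le_max_left _ _).trans ((le_max_right _ _).trans hT)
  have hTc : 1 ≤ T := (le_max_right _ _).trans ((le_max_right _ _).trans hT)
  have h2 := hT₁ T hTb
  obtain ⟨h3, h4⟩ := h T hTa
  obtain ⟨-, h5, h6, -⟩ := h4 i.1.1 ((le_max_right _ _).trans ((le_max_right _ _).trans h2)) (algebraMap i.1.1 ℂ)
  have hsub : ExcEnd f (InnerM U (i.2 + 1)) i.1.1 (algebraMap i.1.1 ℂ) Γ ((i.2 + 1 : ℕ) : ℝ) T ⊆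
      ExcEnd f (InnerM U (ω T)) i.1.1 (algebraMap i.1.1 ℂ) Γ (ω T : ℝ) T := by
    rintro s ⟨ha, hb, M, hM, hP, hγ⟩
    have hle : i.2 + 1 ≤ ω T := (le_max_left _ _).trans ((le_max_right _ _).trans h2)
    refine ⟨ha, inner_mono (Nat.succ_pos _) hle hb, M, fun a b φ => (hM a b φ).trans ?_, hP, hγ⟩
    exact Real.rpow_le_rpow_of_exponent_le hTc (by exact_mod_cast hle)
  have hfin : (Ex U f Γ i T).Finite := (h5.subset hsub).image _
  refine ⟨hfin, ?_⟩
  have h7 : (Ex U f Γ i T).ncard ≤ (ExcEnd f (InnerM U (ω T)) i.1.1 (algebraMap i.1.1 ℂ) Γ (ω T : ℝ) T).ncard :=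
    (Set.ncard_image_le (h5.subset hsub)).trans (Set.ncard_le_ncard hsub h5)
  have h8 : ((Ex U f Γ i T).ncard : ℝ) ≤ T ^ ((ω T : ℝ)⁻¹) := by
    refine (show ((Ex U f Γ i T).ncard : ℝ) ≤ _ by exact_mod_cast h7).trans (h6.trans ?_)
    rw [Fintype.card_fin, Nat.sub_self, pow_zero, mul_one]
  rw [one_mul]
  refine h8.trans (Real.rpow_le_rpow_of_exponent_le hTc ?_)
  have hk2 : (k : ℝ) ≤ ω T := by exact_mod_cast (le_max_left _ _).trans h2
  have hk0 : (0 : ℝ) < k := lt_of_le_of_lt (by positivity) hk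
  have h9 : 1 / σ < (ω T : ℝ) := hk.trans_le hk2
  rw [div_lt_iff₀ hσ] at h9
  rw [inv_eq_one_div, div_le_iff₀ (hk0.trans_le hk2)]
  linarith [mul_comm σ (ω T : ℝ)]

/-- **Theorem.** Let `U`, `F_j` be as above, such that the elements of the field generated by `x` and the entries of the `F_j`
which are algebraic over `ℂ(x)` are in `ℂ(x)` (`RegularM`), and let `Γ` be a subgroup of `GL_H(ℂ)` such that all polynomial
relations over `ℂ[x]` between the entries of the `F_j` on `U` are relations between the entries of the matrices `γ F_j`, for all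
`γ ∈ Γ` (`MonInv`; for instance the monodromy group). Then there is a set `Z` of Hausdorff dimension `0` such that for all
`x ∈ U` outside `Z`, all number fields `K` in `ℂ`, all `τ > 0` and `A`, and all sufficiently large `T` the following holds for
ALL points `s` of `K` of height at most `T` with `|x - s| ≤ T ^ (-τ)`: every matrix `M` over the integers of `K`, with all
conjugates of the entries at most `T ^ A`, which preserves the column spaces of all `F_j(s)`, preserves those of all the matrices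
`γ F_j(s)`, `γ ∈ Γ`; and if `Γ` is infinite and the stabilizers in `Γ` of all `(F_j(x))_j`, `x ∈ U`, are finite, then `M` does
not have distinct eigenvalues. -/
theorem result {U : Set (Fin 1 → ℂ)} {f : Sg H J r → (Fin 1 → ℂ) → ℂ}
    (hU : IsPreconnected U) (hUo : IsOpen U) (hne : U.Nonempty) (hf : ∀ i, AnalyticOnNhd ℂ (f i) U)
    (hreg : RegularM U f) (Γ : Subgroup (GL H ℂ)) (hΓ : ∀ γ ∈ Γ, MonInv U f (γ : Matrix H H ℂ)) :
    ∃ Z : Set (Fin 1 → ℂ), dimH Z = 0 ∧ ∀ x ∈ U, x ∉ Z →
      ∀ (K : IntermediateField ℚ ℂ) [NumberField K] (τ A : ℝ), 0 < τ →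
      ∀ᶠ T : ℝ in atTop, ∀ s : K, Y120.HtLe K T s → ‖x 0 - s‖ ≤ T ^ (-τ) →
        ∀ M : Matrix H H (𝓞 K), (∀ i j (φ : K →+* ℂ), ‖φ (M i j : K)‖ ≤ T ^ A) → Pres (at' f s) (toC K M) →
          (∀ γ ∈ Γ, Pres (act (γ : Matrix H H ℂ) (at' f s)) (toC K M)) ∧
          (Infinite Γ → (∀ z ∈ U, (Stab Γ fun y => f y z).Finite) → ¬ (toC K M).charpoly.Separable) := by
  have hcount : Countable {F : IntermediateField ℚ ℂ // FiniteDimensional ℚ F} := Pool.Agent.Q229.RAC.countable_nf
  have key := fun j : ℕ => Pool.Agent.Q229.RAC.near_all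
    (ι := {F : IntermediateField ℚ ℂ // FiniteDimensional ℚ F} × ℕ) (fun i _ T => Ex U f Γ i T) (σ₀ := 0) le_rfl
    (fun i B T T' q hT hTT _ _ hq => by
      haveI : FiniteDimensional ℚ i.1.1 := i.1.2
      haveI : NumberField i.1.1 := NumberField.mk
      obtain ⟨s, ⟨ha, hb, M, hM, hP, hγ⟩, rfl⟩ := hq
      exact ⟨s, ⟨fun j => htLe_mono hTT (ha j), hb, M, fun a b φ => (hM a b φ).trans
        (Real.rpow_le_rpow (by linarith) hTT (Nat.cast_nonneg _)), hP, hγ⟩, rfl⟩)
    (fun i σ hσ => by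
      obtain ⟨C, T₀, h⟩ := ex_count hU hUo hne hf hreg Γ hΓ i σ hσ
      exact ⟨0, C, T₀, h⟩) (1 / ((j : ℝ) + 1)) (by positivity)
  choose Z h1 h2 using key
  refine ⟨⋃ j, Z j, ?_, fun x hx hxZ K _ τ A hτ => ?_⟩
  · rw [dimH_iUnion]
    simp only [ENNReal.iSup_eq_zero]
    intro j
    have h3 := h1 j
    simpa using h3
  · obtain ⟨j, hj⟩ := exists_nat_one_div_lt hτ
    obtain ⟨δ, hδ, hball⟩ := Metric.isOpen_iff.1 hUo x hx
    obtain ⟨k1, hk1⟩ := exists_nat_one_div_lt (show (0 : ℝ) < δ / 2 by positivity)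
    obtain ⟨k2, hk2⟩ := exists_nat_ge (max A (‖x‖ + 1))
    have hfd : FiniteDimensional ℚ K := inferInstance
    set k : ℕ := max k1 k2 with hk
    obtain ⟨-, hB⟩ := h2 j x (fun h => hxZ (Set.mem_iUnion.2 ⟨j, h⟩)) (⟨K, hfd⟩, k)
    have htend : Tendsto (fun T : ℝ => T ^ (-τ)) atTop (𝓝 0) := tendsto_rpow_neg_atTop hτ
    filter_upwards [hB, eventually_ge_atTop 1, htend.eventually_lt_const (show (0 : ℝ) < min 1 (δ / 2) by positivity)]
      with T hT hT1 hTs s hs hxs M hM hP
    have hdist : dist x (fun _ => (s : ℂ)) ≤ T ^ (-τ) := by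
      rw [dist_pi_le_iff (by positivity)]
      intro i
      rw [Subsingleton.elim i 0, dist_eq_norm]
      exact hxs
    have hin : (fun _ : Fin 1 => (s : ℂ)) ∈ InnerM U (k + 1) := by
      have h5 : dist x (fun _ : Fin 1 => (s : ℂ)) < min 1 (δ / 2) := hdist.trans_lt hTs
      refine ⟨?_, fun z hz => hball ?_⟩
      · have h6 : ‖(fun _ : Fin 1 => (s : ℂ))‖ ≤ ‖x‖ + 1 := by
          have h7 := norm_le_norm_add_norm_sub' (fun _ : Fin 1 => (s : ℂ)) x
          have h8 : dist x (fun _ : Fin 1 => (s : ℂ)) < 1 := h5.trans_le (min_le_left _ _)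
          rw [dist_comm, dist_eq_norm] at h8
          have h9 := norm_sub_rev (fun _ : Fin 1 => (s : ℂ)) x
          linarith
        refine h6.trans ((le_max_right _ _).trans (hk2.trans ?_))
        have : k2 ≤ k + 1 := (le_max_right k1 k2).trans (Nat.le_succ _)
        exact_mod_cast this
      · have h6 : dist x (fun _ : Fin 1 => (s : ℂ)) < δ / 2 := h5.trans_le (min_le_right _ _)
        rw [Metric.mem_ball] at hz ⊢
        have h7 : ((k + 1 : ℕ) : ℝ)⁻¹ ≤ 1 / ((k1 : ℝ) + 1) := by
          rw [← one_div]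
          refine one_div_le_one_div_of_le (by positivity) ?_
          have : k1 ≤ k := le_max_left _ _
          push_cast
          have h10 : (k1 : ℝ) ≤ k := by exact_mod_cast this
          linarith
        have h8 := dist_triangle z (fun _ : Fin 1 => (s : ℂ)) x
        rw [dist_comm (fun _ : Fin 1 => (s : ℂ)) x] at h8
        linarith
    have hA : A ≤ ((k + 1 : ℕ) : ℝ) := by
      have h5 : A ≤ (k2 : ℝ) := (le_max_left _ _).trans hk2
      have h6 : k2 ≤ k + 1 := (le_max_right k1 k2).trans (Nat.le_succ _)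
      exact h5.trans (by exact_mod_cast h6)
    have hnot := hT (fun _ => (s : ℂ)) (hdist.trans (Real.rpow_le_rpow_of_exponent_le hT1 (by linarith)))
    have hMk : ∀ i j (φ : K →+* ℂ), ‖φ (M i j : K)‖ ≤ T ^ ((k + 1 : ℕ) : ℝ) := fun i j φ =>
      (hM i j φ).trans (Real.rpow_le_rpow_of_exponent_le hT1 hA)
    refine ⟨fun γ hγ => ?_, fun hinf hst hsep => ?_⟩
    · by_contra hcon
      exact hnot ⟨fun _ => s, ⟨fun _ => hs, hin, M, hMk, hP, γ, hγ, hcon⟩, rfl⟩
    · have h5 : (fun _ => s : Fin 1 → K) ∈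
          ExcEnd f (InnerM U (k + 1)) K (algebraMap K ℂ) Γ ((k + 1 : ℕ) : ℝ) T :=
        cm_sub (f := f) Γ hinf hst (Lc := InnerM U (k + 1)) (fun z hz => hz.2 (Metric.mem_ball_self (by positivity)))
          K (algebraMap K ℂ) ((k + 1 : ℕ) : ℝ) T ⟨fun _ => hs, hin, M, hMk, hsep, hP⟩
      exact hnot ⟨fun _ => s, h5, rfl⟩

end Pool.Agent.Results.MP_2794d1_ag.NumberFieldPoints
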